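import Mathlib

/-!
# Odd values of the partition function (MP_ebc808_nt): common definitions (PO project)
-/

namespace Pool.Agent.helper28.PO

open PowerSeries Finset

/-! ## Algebra -/

open Classical in
/-- The sum of `q ^ n`, `n` an odd square. -/
noncomputable def th : (ZMod 2)⟦X⟧ :=
  PowerSeries.mk fun n => if ∃ s : ℕ, n = (2 * s + 1) ^ 2 then 1 else 0

/-- The Hecke operator at `p` modulo 2. -/
noncomputable def HT (p : ℕ) : (ZMod 2)⟦X⟧ →ₗ[ZMod 2] (ZMod 2)⟦X⟧ where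
  toFun f := PowerSeries.mk fun n => coeff (p * n) f + (if p ∣ n then coeff (n / p) f else 0)
  map_add' f g := by
    ext n
    simp only [coeff_mk, map_add]
    split_ifs <;> ring
  map_smul' c f := by
    ext n
    simp only [coeff_mk, coeff_smul, smul_eq_mul, RingHom.id_apply, mul_add]
    split_ifs <;> ring

lemma coeff_HT (p n : ℕ) (f : (ZMod 2)⟦X⟧) :
    coeff n (HT p f) = coeff (p * n) f + (if p ∣ n then coeff (n / p) f else 0) := by
  simp [HT]

/-- The pair of weights: `n = φ(a) + 2 φ(b)` has the weights `a + b` and `a + 2 b`,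
where `φ` spreads the binary digits (`φ(∑ 2 ^ i) = ∑ 4 ^ i`). -/
def wts (n : ℕ) : ℕ × ℕ :=
  if h : n = 0 then (0, 0) else
    ((wts (n / 2)).2 + n % 2, 2 * (wts (n / 2)).1 + n % 2)
termination_by n
decreasing_by all_goals omega

/-- First weight. -/
def w1 (n : ℕ) : ℕ := (wts n).1

/-- Second weight. -/
def w2 (n : ℕ) : ℕ := (wts n).2

@[simp] lemma w1_zero : w1 0 = 0 := by simp [w1, wts]
@[simp] lemma w2_zero : w2 0 = 0 := by simp [w2, wts]

lemma w1_two_mul (n : ℕ) : w1 (2 * n) = w2 n := by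
  rcases Nat.eq_zero_or_pos n with rfl | hn
  · simp
  · unfold w1 w2
    rw [wts, dif_neg (by omega)]
    simp

lemma w2_two_mul (n : ℕ) : w2 (2 * n) = 2 * w1 n := by
  rcases Nat.eq_zero_or_pos n with rfl | hn
  · simp
  · unfold w1 w2
    rw [wts, dif_neg (by omega)]
    simp

lemma w1_two_mul_add_one (n : ℕ) : w1 (2 * n + 1) = w2 n + 1 := by
  unfold w1 w2
  rw [wts, dif_neg (by omega)]
  have h1 : (2 * n + 1) / 2 = n := by omega
  have h2 : (2 * n + 1) % 2 = 1 := by omega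
  simp [h1, h2]

lemma w2_two_mul_add_one (n : ℕ) : w2 (2 * n + 1) = 2 * w1 n + 1 := by
  unfold w1 w2
  rw [wts, dif_neg (by omega)]
  have h1 : (2 * n + 1) / 2 = n := by omega
  have h2 : (2 * n + 1) % 2 = 1 := by omega
  simp [h1, h2]

/-- Power sums of the roots of `γ ^ 4 + u γ + 1`. -/
noncomputable def tau : ℕ → Polynomial (ZMod 2)
  | 0 => 0
  | 1 => 0
  | 2 => 0
  | 3 => Polynomial.X
  | n + 4 => tau n + Polynomial.X * tau (n + 1)

/-- Power sums of the roots of `δ ^ 6 + δ ^ 4 + δ ^ 2 + u δ + 1`. -/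
noncomputable def sig : ℕ → Polynomial (ZMod 2)
  | 0 => 0
  | 1 => 0
  | 2 => 0
  | 3 => 0
  | 4 => 0
  | 5 => Polynomial.X
  | n + 6 => sig (n + 4) + sig (n + 2) + sig n + Polynomial.X * sig (n + 1)

/-- The span of the odd powers of `th`. -/
noncomputable def VV : Submodule (ZMod 2) (ZMod 2)⟦X⟧ :=
  Submodule.span (ZMod 2) (Set.range fun κ : ℕ => th ^ (2 * κ + 1))

/-- The kernel filtration: elements of `VV` killed by all monomials of degree `n` in
`HT 3`, `HT 5`. -/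
def KF (n : ℕ) (g : (ZMod 2)⟦X⟧) : Prop :=
  g ∈ VV ∧ ∀ i j : ℕ, i + j = n → ((HT 3) ^ i) (((HT 5) ^ j) g) = 0

/-- The exponent `(4 ^ m - 1) / 3`. -/
def ex (m : ℕ) : ℕ := (4 ^ m - 1) / 3

/-- Good integers: one prime `q ≡ 9 mod 16` and `2 ^ (m - 1) - 3` primes `≡ 5 mod 8`. -/
def Good (m N : ℕ) : Prop :=
  Squarefree N ∧ ∃ q ∈ N.primeFactors, q % 16 = 9 ∧ (∀ p ∈ N.primeFactors.erase q, p % 8 = 5) ∧
    (N.primeFactors.erase q).card = 2 ^ (m - 1) - 3

/-! ## Analysis -/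

/-- The Jacobi symbol `(n / d)` as a real number. -/
noncomputable def J (d n : ℕ) : ℝ := (jacobiSym n d : ℝ)

open Classical in
/-- The Dirichlet character modulo `d` given by the Jacobi symbol. -/
noncomputable def jch (d : ℕ) : DirichletCharacter ℂ d :=
  if h : ∃ χ : DirichletCharacter ℂ d, ∀ n : ℕ, χ n = ((jacobiSym n d : ℤ) : ℂ) then h.choose else 1

/-- The character `n ↦ (n / d) ψ(n)` modulo `d * r`. -/
noncomputable def psi (d r : ℕ) (ψ : DirichletCharacter ℂ r) : DirichletCharacter ℂ (d * r) :=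
  DirichletCharacter.changeLevel (dvd_mul_right d r) (jch d) *
    DirichletCharacter.changeLevel (dvd_mul_left r d) ψ

/-- The weight `log q / q ^ (1 + 1 / K ^ 10)`. -/
noncomputable def wa (K q : ℕ) : ℝ := Real.log q * (q : ℝ) ^ (-(1 + 1 / (K : ℝ) ^ 10))

/-- Primes in `(y, Y]` congruent to `c` modulo `r`. -/
def PR (r c y Y : ℕ) : Finset ℕ := {q ∈ Ioc y Y | q.Prime ∧ q % r = c}

/-- `∏ (1 - (p / d) / p)` over the primes `5 ≤ p ≤ z`. -/
noncomputable def MM (d z : ℕ) : ℝ :=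
  ∏ p ∈ {p ∈ Icc 5 z | p.Prime}, (1 - J d p / p)

/-- Kernels. -/
def Ker (d : ℕ) : Prop := Squarefree d ∧ d % 24 = 23

/-- The conditions on the parameters `K, y, Y`. -/
def Par (K y Y : ℕ) : Prop :=
  1 ≤ y ∧ Real.log y ≤ (K : ℝ) ^ 9 ∧ (K : ℝ) ^ 11 / 8 ≤ Real.log Y

/-- The point `1 + 1 / K ^ 10`. -/
noncomputable def sK (K : ℕ) : ℂ := 1 + ((1 / (K : ℝ) ^ 10 : ℝ) : ℂ)

/-- `∑ wa(q) (q / d)` over the primes in `(y, Y]` congruent to 5 modulo 8. -/
noncomputable def UU (K y Y d : ℕ) : ℝ := ∑ q ∈ PR 8 5 y Y, wa K q * J d q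

/-- The total weight. -/
noncomputable def ZZ (K y Y : ℕ) : ℝ := ∑ q ∈ PR 8 5 y Y, wa K q

/-- The injective `n`-tuples of primes in `(y, Y]` congruent to 5 modulo 8. -/
noncomputable def TU (n y Y : ℕ) : Finset (Fin n → ℕ) := by
  classical
  exact (Fintype.piFinset fun _ : Fin n => PR 8 5 y Y).filter fun f => Function.Injective f

/-- The probability weight of a tuple. -/
noncomputable def om (K y Y : ℕ) {n : ℕ} (f : Fin n → ℕ) : ℝ := ∏ i, (wa K (f i) / ZZ K y Y)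

/-- The integer `q₀ ∏ f i`. -/
def RR (q₀ : ℕ) {n : ℕ} (f : Fin n → ℕ) : ℕ := q₀ * ∏ i, f i

/-- Primes `p ≡ b` modulo `M` with `4 X < R p ≤ 8 X`. -/
def PX (X R M b : ℕ) : Finset ℕ := {p ∈ Icc 1 (8 * X) | p.Prime ∧ 4 * X < R * p ∧ R * p ≤ 8 * X ∧ p % M = b % M}

open Classical in
/-- The `w ≤ W` such that `24 a + 4 ^ m w ^ 2 = 3 R p + 1` for a prime `p > z` not dividing `R`. -/
noncomputable def AA (m W z R a : ℕ) : Finset ℕ :=
  {w ∈ Icc 1 W | ∃ p : ℕ, p.Prime ∧ z < p ∧ ¬ p ∣ R ∧ 24 * a + 4 ^ m * w ^ 2 = 3 * R * p + 1}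

open Classical in
/-- The `n ≤ X` in the class of `a` modulo `2 ^ i` with an odd number of partitions. -/
noncomputable def OO (i a X : ℕ) : Finset ℕ :=
  {n ∈ range (X + 1) | n ≡ a [MOD 2 ^ i] ∧ Odd (Fintype.card (Nat.Partition n))}

open Classical in
/-- The `a ≤ X` for which `24 a - 1` has a bad kernel `d > A`. -/
noncomputable def BA (C A : ℝ) (K y z Y X : ℕ) : Finset ℕ :=
  {a ∈ Icc 1 X | ∃ d t : ℕ, Ker d ∧ 1 ≤ t ∧ A < d ∧ d * t ^ 2 + 1 = 24 * a ∧
    ¬ (MM d z ≤ C * Real.log y ∧ UU K y Y d ≤ C)}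

end Pool.Agent.helper28.PO
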